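import Pool.Agent.H20.MDual

namespace Pool.Agent.Results.MP_e4445d_al.Yes

open Pool.Agent.H20.MDual

universe u

theorem result : (∀ (H : Type u) [NormedAddCommGroup H],
      (∀ φ : H →+ UnitAddCircle, Continuous φ ↔ ∃ χ : Dual H, ∀ x, χ x = φ x) ∧
      ∀ χ : Dual H, ‖χ‖ = sInf {M : ℝ | 0 < M ∧ ∀ x, ‖χ x‖ ≤ M * ‖x‖}) ∧
    ∀ (G : Type u) [NormedAddCommGroup G], weight (Dual G) ≤ weight (Dual (Dual G)) :=
  full

end Pool.Agent.Results.MP_e4445d_al.Yes
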